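import Pool.Agent.K1H27.TP.Stm

/-!
# The hinge inequality
-/

set_option autoImplicit false

open MeasureTheory Pool.Agent.K1H27.TP

namespace Pool.Agent.K1H52.TP

/-- Piece DUAL with the intended parentheses. -/
def S_DUAL' : Prop := ∀ (a b τ : ℝ) (M ψ : ℝ → ℝ), a < b → 0 ≤ τ → Continuous M →
  (∀ x ∈ Set.Icc a b, 0 ≤ M x) → ∫ x in a..b, M x = 1 →
  (∀ s1 s2 s3, a ≤ s1 → s1 < s2 → s2 < s3 → s3 ≤ b → min (M s1) (M s3) ≤ M s2) →
  Measurable ψ → (∀ x, |ψ x| ≤ 1) → 0 ≤ ∫ x in a..b, ψ x →
  (∫ t in a..b, |(∫ x in a..b, ψ x) * (∫ x in a..t, M x) - ∫ x in a..t, ψ x|)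
    - τ * (∫ x in a..b, |ψ x|) ≤
    chi τ ((∫ x in a..b, M x * x) - a) + chi τ (b - ∫ x in a..b, M x * x)

/-- sign of `g` where `|g| > τ` -/
noncomputable def ps (τ : ℝ) (g : ℝ → ℝ) (x : ℝ) : ℝ :=
  if τ < g x then 1 else if g x < -τ then -1 else 0

lemma ps_meas {τ : ℝ} {g : ℝ → ℝ} (hg : Continuous g) : Measurable (ps τ g) := by
  unfold ps
  exact Measurable.ite (measurableSet_lt measurable_const hg.measurable) measurable_const
    (Measurable.ite (measurableSet_lt hg.measurable measurable_const) measurable_const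
      measurable_const)

lemma ps_abs (τ : ℝ) (g : ℝ → ℝ) (x : ℝ) : |ps τ g x| ≤ 1 := by
  unfold ps
  split_ifs <;> simp

lemma ps_eq {τ : ℝ} (hτ : 0 ≤ τ) (g : ℝ → ℝ) (x : ℝ) :
    max (|g x| - τ) 0 = ps τ g x * g x - τ * |ps τ g x| := by
  unfold ps
  split_ifs with h1 h2
  · rw [abs_of_pos (by linarith), max_eq_left (by linarith)]
    simp
  · rw [abs_of_neg (by linarith), max_eq_left (by linarith)]
    simp
  · have : |g x| ≤ τ := abs_le.2 ⟨by linarith, by linarith⟩
    rw [max_eq_right (by linarith)]
    simp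

lemma ps_neg {τ : ℝ} (hτ : 0 ≤ τ) (g : ℝ → ℝ) (x : ℝ) : ps τ (fun y => -g y) x = -ps τ g x := by
  unfold ps
  by_cases h1 : τ < g x
  · have h2 : ¬ τ < -g x := by linarith
    have h3 : -g x < -τ := by linarith
    simp [h1, h2, h3]
  · by_cases h2 : g x < -τ
    · have h3 : τ < -g x := by linarith
      simp [h1, h2, h3]
    · have h3 : ¬ τ < -g x := by linarith
      have h4 : ¬ -g x < -τ := by linarith
      simp [h1, h2, h3, h4]

lemma int_F {τ y : ℝ} (hτ : 0 ≤ τ) (hy : 0 ≤ y) : ∫ s in (0:ℝ)..y, max (s - τ) 0 = chi τ y := by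
  unfold chi
  rcases le_total y τ with h | h
  · rw [max_eq_right (by linarith)]
    rw [intervalIntegral.integral_congr (g := fun _ => (0 : ℝ))]
    · simp
    · intro s hs
      rw [Set.uIcc_of_le hy] at hs
      exact max_eq_right (by linarith [hs.2])
  · rw [max_eq_left (by linarith)]
    have hc : Continuous fun s : ℝ => max (s - τ) 0 := by fun_prop
    rw [← intervalIntegral.integral_add_adjacent_intervals (hc.intervalIntegrable 0 τ)
      (hc.intervalIntegrable τ y)]
    have e1 : ∫ s in (0:ℝ)..τ, max (s - τ) 0 = 0 := by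
      rw [intervalIntegral.integral_congr (g := fun _ => (0 : ℝ))]
      · simp
      · intro s hs
        rw [Set.uIcc_of_le hτ] at hs
        exact max_eq_right (by linarith [hs.2])
    have e2 : ∫ s in τ..y, max (s - τ) 0 = ∫ s in τ..y, (s - τ) := by
      apply intervalIntegral.integral_congr
      intro s hs
      rw [Set.uIcc_of_le h] at hs
      exact max_eq_left (by linarith [hs.1])
    have hid : Continuous fun s : ℝ => s := continuous_id
    rw [e1, e2, intervalIntegral.integral_sub (hid.intervalIntegrable _ _)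
      intervalIntegrable_const, integral_id,
      intervalIntegral.integral_const]
    simp only [smul_eq_mul]
    ring

lemma rhs {a b m τ : ℝ} (hτ : 0 ≤ τ) (ham : a ≤ m) (hmb : m ≤ b) :
    ∫ x in a..b, max (|x - m| - τ) 0 = chi τ (m - a) + chi τ (b - m) := by
  have hc : Continuous fun x : ℝ => max (|x - m| - τ) 0 := by fun_prop
  rw [← intervalIntegral.integral_add_adjacent_intervals (hc.intervalIntegrable a m)
    (hc.intervalIntegrable m b)]
  congr 1
  · have e : ∫ x in a..m, max (|x - m| - τ) 0 = ∫ x in a..m, (fun s => max (s - τ) 0) (m - x) := by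
      apply intervalIntegral.integral_congr
      intro x hx
      rw [Set.uIcc_of_le ham] at hx
      simp only
      rw [abs_sub_comm, abs_of_nonneg (by linarith [hx.2])]
    refine e.trans ((intervalIntegral.integral_comp_sub_left (fun s => max (s - τ) 0) m).trans ?_)
    rw [sub_self, int_F hτ (by linarith)]
  · have e : ∫ x in m..b, max (|x - m| - τ) 0 = ∫ x in m..b, (fun s => max (s - τ) 0) (x - m) := by
      apply intervalIntegral.integral_congr
      intro x hx
      rw [Set.uIcc_of_le hmb] at hx
      simp only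
      rw [abs_of_nonneg (by linarith [hx.1])]
    refine e.trans ((intervalIntegral.integral_comp_sub_right (fun s => max (s - τ) 0) m).trans ?_)
    rw [sub_self, int_F hτ (by linarith)]

lemma core (hD : S_DUAL') (hI : S_IBP) (a b τ : ℝ) (M g : ℝ → ℝ) (hab : a < b) (hτ : 0 ≤ τ)
    (hM : Continuous M) (hg : Continuous g) (hM0 : ∀ x ∈ Set.Icc a b, 0 ≤ M x)
    (hM1 : ∫ x in a..b, M x = 1)
    (hu : ∀ s1 s2 s3, a ≤ s1 → s1 < s2 → s2 < s3 → s3 ≤ b → min (M s1) (M s3) ≤ M s2)
    (hL : ∀ x ∈ Set.Icc a b, ∀ y ∈ Set.Icc a b, |g x - g y| ≤ |x - y|)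
    (h0 : ∫ x in a..b, M x * g x = 0) (hpos : 0 ≤ ∫ x in a..b, ps τ g x) :
    ∫ x in a..b, max (|g x| - τ) 0 ≤
      chi τ ((∫ x in a..b, M x * x) - a) + chi τ (b - ∫ x in a..b, M x * x) := by
  have hm := ps_meas (τ := τ) hg
  have i1 : IntervalIntegrable (fun x => ps τ g x * g x) volume a b := by
    have hgi : IntervalIntegrable (fun x => |g x|) volume a b := (hg.abs).intervalIntegrable a b
    refine hgi.mono_fun' (hm.mul hg.measurable).aestronglyMeasurable (ae_of_all _ fun x => ?_)
    simp only [Real.norm_eq_abs]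
    rw [abs_mul]
    have := mul_le_mul_of_nonneg_right (ps_abs τ g x) (abs_nonneg (g x))
    linarith
  have i2 : IntervalIntegrable (fun x => τ * |ps τ g x|) volume a b := by
    have hgi : IntervalIntegrable (fun _ : ℝ => |τ|) volume a b := intervalIntegrable_const
    refine hgi.mono_fun' (measurable_const.mul hm.abs).aestronglyMeasurable
      (ae_of_all _ fun x => ?_)
    simp only [Real.norm_eq_abs]
    rw [abs_mul, abs_abs]
    have := mul_le_mul_of_nonneg_left (ps_abs τ g x) (abs_nonneg τ)
    linarith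
  have e : ∫ x in a..b, max (|g x| - τ) 0 =
      (∫ x in a..b, ps τ g x * g x) - τ * ∫ x in a..b, |ps τ g x| := by
    simp only [ps_eq hτ]
    rw [intervalIntegral.integral_sub i1 i2, intervalIntegral.integral_const_mul]
  have h1 := hI a b M (ps τ g) g hab hM hg hL hM1 h0 hm (ps_abs τ g)
  have h2 := hD a b τ M (ps τ g) hab hτ hM hM0 hM1 hu hm (ps_abs τ g) hpos
  rw [e]
  linarith

theorem t_HINGE (hD : S_DUAL') (hI : S_IBP) : S_HINGE := by
  intro a b τ M g hab hτ hM hg hM0 hM1 hu hL h0
  have hmi : Continuous fun s => M s * s := hM.mul continuous_id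
  have ham : a ≤ ∫ s in a..b, M s * s := by
    have h1 : 0 ≤ ∫ s in a..b, M s * (s - a) :=
      intervalIntegral.integral_nonneg hab.le fun s hs =>
        mul_nonneg (hM0 s hs) (by linarith [hs.1])
    have h2 : ∫ s in a..b, M s * (s - a) = (∫ s in a..b, M s * s) - a := by
      simp only [mul_sub]
      have hc : Continuous fun s => M s * a := hM.mul continuous_const
      rw [intervalIntegral.integral_sub (hmi.intervalIntegrable a b)
        (hc.intervalIntegrable a b), intervalIntegral.integral_mul_const,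
        hM1, one_mul]
    linarith
  have hmb : ∫ s in a..b, M s * s ≤ b := by
    have h1 : 0 ≤ ∫ s in a..b, M s * (b - s) :=
      intervalIntegral.integral_nonneg hab.le fun s hs =>
        mul_nonneg (hM0 s hs) (by linarith [hs.2])
    have h2 : ∫ s in a..b, M s * (b - s) = b - ∫ s in a..b, M s * s := by
      simp only [mul_sub]
      have hc : Continuous fun s => M s * b := hM.mul continuous_const
      rw [intervalIntegral.integral_sub (hc.intervalIntegrable a b)
        (hmi.intervalIntegrable a b), intervalIntegral.integral_mul_const, hM1, one_mul]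
    linarith
  rw [rhs hτ ham hmb]
  rcases le_total 0 (∫ x in a..b, ps τ g x) with h | h
  · exact core hD hI a b τ M g hab hτ hM hg hM0 hM1 hu hL h0 h
  · have h3 := core hD hI a b τ M (fun y => -g y) hab hτ hM hg.neg hM0 hM1 hu ?_ ?_ ?_
    · simpa only [abs_neg] using h3
    · intro x hx y hy
      have := hL x hx y hy
      rw [show -g x - -g y = -(g x - g y) by ring, abs_neg]
      exact this
    · simp only [mul_neg]
      rw [intervalIntegral.integral_neg, h0, neg_zero]
    · have : (fun x => ps τ (fun y => -g y) x) = fun x => -ps τ g x := by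
        funext x
        exact ps_neg hτ g x
      rw [this, intervalIntegral.integral_neg]
      linarith

end Pool.Agent.K1H52.TP
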